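import Pool.Agent.W133.DQ.StB
import Pool.Agent.W133.DQ.StC

set_option autoImplicit false

open scoped ContDiff
open Set Filter Topology Pool.Agent.W133.DQ

namespace Pool.Agent.W509.DQ

/-- families of time-one maps of cut-off vector fields. -/
theorem core2 (hF : S_FLOW) (V : Type) [NormedAddCommGroup V] [NormedSpace ℝ V]
    [FiniteDimensional ℝ V] (Y : V × P2 → P2) (hY : ContDiff ℝ ∞ Y) (B ρ : ℝ) (hB : 0 < B)
    (hρ : 0 < ρ) :
    ∃ P : V → Equiv.Perm P2, ContDiff ℝ ∞ (fun q : V × P2 => P q.1 q.2) ∧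
      ContDiff ℝ ∞ (fun q : V × P2 => (P q.1)⁻¹ q.2) ∧
      (∀ w p, ρ + 1 ≤ ‖p‖ → P w p = p) ∧
      (∀ w, ‖w‖ ≤ B → ∀ γ : ℝ → P2, (∀ t ∈ Icc (0 : ℝ) 1, HasDerivAt γ (Y (w, γ t)) t) →
        (∀ t ∈ Icc (0 : ℝ) 1, ‖γ t‖ ≤ ρ) → P w (γ 0) = γ 1) ∧
      ∀ w p, Y (w, p) = 0 → P w p = p := by
  let χ : ContDiffBump (0 : P2) := ⟨ρ, ρ + 1, hρ, by linarith⟩
  let χV : ContDiffBump (0 : V) := ⟨B, B + 1, hB, by linarith⟩
  let Z : V × P2 → P2 := fun q => (χV q.1 * χ q.2) • Y q
  let X : V × P2 → V × P2 := fun q => (0, Z q)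
  have hZs : ContDiff ℝ ∞ Z :=
    ((χV.contDiff.comp contDiff_fst).mul (χ.contDiff.comp contDiff_snd)).smul hY
  have hXs : ContDiff ℝ ∞ X := contDiff_const.prodMk hZs
  have hXc : HasCompactSupport X := by
    apply HasCompactSupport.intro (K := Metric.closedBall (0 : V) (B + 1) ×ˢ
      Metric.closedBall (0 : P2) (ρ + 1))
      ((isCompact_closedBall _ _).prod (isCompact_closedBall _ _))
    intro q hq
    rw [mem_prod, not_and_or] at hq
    have : χV q.1 * χ q.2 = 0 := by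
      rcases hq with h | h
      · rw [mem_closedBall_zero_iff, not_le] at h
        rw [χV.zero_of_le_dist (by rw [dist_zero_right]; exact h.le), zero_mul]
      · rw [mem_closedBall_zero_iff, not_le] at h
        rw [χ.zero_of_le_dist (by rw [dist_zero_right]; exact h.le), mul_zero]
    show ((0 : V), (χV q.1 * χ q.2) • Y q) = 0
    rw [this, zero_smul]
    rfl
  obtain ⟨K, hK⟩ := hXs.lipschitzWith_of_hasCompactSupport hXc (by simp)
  obtain ⟨Φ, h0, hadd, hsm, hder⟩ := hF (V × P2) X hXs ⟨K, hK⟩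
  -- uniqueness
  have huniq : ∀ (q : V × P2) (γ : ℝ → V × P2), (∀ t ∈ Icc (0 : ℝ) 1, HasDerivAt γ (X (γ t)) t) →
      γ 0 = q → Φ 1 q = γ 1 := by
    intro q γ hγ hq
    have h2 : EqOn (fun s => Φ s q) γ (Icc 0 1) := by
      refine ODE_solution_unique (v := fun _ => X) (K := K) (fun _ => hK) ?_ ?_ ?_ ?_ ?_
      · exact fun t _ => (hder t q).continuousAt.continuousWithinAt
      · exact fun t _ => (hder t q).hasDerivWithinAt
      · exact fun t ht => (hγ t ht).continuousAt.continuousWithinAt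
      · exact fun t ht => (hγ t ⟨ht.1, ht.2.le⟩).hasDerivWithinAt
      · show Φ 0 q = γ 0
        rw [h0, hq]; rfl
    exact h2 (right_mem_Icc.mpr zero_le_one)
  -- the first component is constant
  have hfst : ∀ t (q : V × P2), (Φ t q).1 = q.1 := by
    intro t q
    have hd : ∀ s, HasDerivAt (fun s => (Φ s q).1) 0 s := by
      intro s
      exact (hasFDerivAt_fst (𝕜 := ℝ) (p := Φ s q)).comp_hasDerivAt s (hder s q)
    have := is_const_of_deriv_eq_zero (fun s => (hd s).differentiableAt) (fun s => (hd s).deriv) t 0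
    rw [this, h0]
    rfl
  have hcancel : ∀ (t : ℝ) (q : V × P2), Φ t (Φ (-t) q) = q := by
    intro t q
    rw [← Equiv.Perm.mul_apply, ← hadd, add_neg_cancel, h0]
    rfl
  have hpair : ∀ t (w : V) (p : P2), (w, (Φ t (w, p)).2) = Φ t (w, p) := by
    intro t w p
    exact Prod.ext (hfst t (w, p)).symm rfl
  let P : V → Equiv.Perm P2 := fun w =>
    { toFun := fun p => (Φ 1 (w, p)).2
      invFun := fun p => (Φ (-1) (w, p)).2
      left_inv := by
        intro p
        show (Φ (-1) (w, (Φ 1 (w, p)).2)).2 = p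
        rw [hpair]
        have := hcancel (-1) (w, p)
        rw [neg_neg] at this
        rw [this]
      right_inv := by
        intro p
        show (Φ 1 (w, (Φ (-1) (w, p)).2)).2 = p
        rw [hpair, hcancel] }
  have hPa : ∀ w p, P w p = (Φ 1 (w, p)).2 := fun w p => rfl
  refine ⟨P, ?_, ?_, ?_, ?_, ?_⟩
  · show ContDiff ℝ ∞ (fun q : V × P2 => (Φ 1 (q.1, q.2)).2)
    exact (contDiff_snd.comp hsm).comp (contDiff_const.prodMk contDiff_id)
  · show ContDiff ℝ ∞ (fun q : V × P2 => (Φ (-1) (q.1, q.2)).2)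
    exact (contDiff_snd.comp hsm).comp (contDiff_const.prodMk contDiff_id)
  · intro w p hp
    have hX : X (w, p) = 0 := by
      have h1 : χ p = 0 := χ.zero_of_le_dist (by rw [dist_zero_right]; exact hp)
      show ((0 : V), (χV w * χ p) • Y (w, p)) = 0
      rw [h1, mul_zero, zero_smul]
      rfl
    rw [hPa, huniq (w, p) (fun _ => (w, p)) (fun t _ => by
      show HasDerivAt (fun _ : ℝ => (w, p)) (X (w, p)) t
      rw [hX]
      exact hasDerivAt_const _ _) rfl]
  · intro w hw γ hγ hn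
    rw [hPa, huniq (w, γ 0) (fun t => (w, γ t)) (fun t ht => by
      have h1 : χ (γ t) = 1 := χ.one_of_mem_closedBall (by
        rw [mem_closedBall_zero_iff]; exact hn t ht)
      have h2 : χV w = 1 := χV.one_of_mem_closedBall (by
        rw [mem_closedBall_zero_iff]; exact hw)
      have h3 : X (w, γ t) = (0, Y (w, γ t)) := by
        show ((0 : V), (χV w * χ (γ t)) • Y (w, γ t)) = (0, Y (w, γ t))
        rw [h1, h2, mul_one, one_smul]
      rw [h3]
      exact (hasDerivAt_const t w).prodMk (hγ t ht)) rfl]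
  · intro w p hp
    have hX : X (w, p) = 0 := by
      show ((0 : V), (χV w * χ p) • Y (w, p)) = 0
      rw [hp, smul_zero]
      rfl
    rw [hPa, huniq (w, p) (fun _ => (w, p)) (fun t _ => by
      show HasDerivAt (fun _ : ℝ => (w, p)) (X (w, p)) t
      rw [hX]
      exact hasDerivAt_const _ _) rfl]

theorem trv (hF : S_FLOW) : S_TRV := by
  intro R hR
  obtain ⟨P, h1, h2, h3, h4, h5⟩ := core2 hF P2 (fun q => q.1) contDiff_fst R (R + 1) hR
    (by linarith)
  refine ⟨P, h1, h2, ?_, ?_, R + 2, ?_⟩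
  · ext1 p
    exact h5 0 p rfl
  · intro v p hv hp
    have := h4 v hv (fun t => p + t • v) (fun t _ => by
      have := ((hasDerivAt_id t).smul_const v).const_add p
      simpa using this) (fun t ht => by
      have h2 : ‖t • v‖ ≤ ‖v‖ := by
        rw [norm_smul, Real.norm_of_nonneg ht.1]
        exact mul_le_of_le_one_left (norm_nonneg _) ht.2
      have h3 := norm_add_le p (t • v)
      linarith)
    simpa using this
  · intro v p hp
    exact h3 v p (by linarith)

theorem ut (hF : S_FLOW) : S_UT := by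
  intro B hB
  obtain ⟨U, u1, u2, u3, u4, u5⟩ := core2 hF (ℝ × ℝ × ℝ) (fun q => (q.1.2.2 * q.2.2, 0))
    (by fun_prop) B 1 hB one_pos
  obtain ⟨D, d1, d2, d3, d4, d5⟩ := core2 hF (ℝ × ℝ × ℝ) (fun q => (q.1.1 * q.2.1, q.1.2.1 * q.2.2))
    (by fun_prop) B 1 hB one_pos
  refine ⟨fun w => D w * U w, ?_, ?_, ?_, ?_, ⟨1 / ((1 + B) * Real.exp B), by positivity, ?_⟩,
    2, ?_⟩
  · exact d1.comp (contDiff_fst.prodMk u1)
  · show ContDiff ℝ ∞ (fun q : (ℝ × ℝ × ℝ) × P2 => (U q.1)⁻¹ ((D q.1)⁻¹ q.2))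
    exact u2.comp (contDiff_fst.prodMk d2)
  · ext1 p
    show D 0 (U 0 p) = p
    rw [u5 0 p (by simp), d5 0 p (by simp)]
  · intro w
    show D w (U w 0) = 0
    rw [u5 w 0 (by simp), d5 w 0 (by simp)]
  · intro w p hw hp
    have hE : 0 < Real.exp B := Real.exp_pos B
    have hE1 : 1 ≤ Real.exp B := Real.one_le_exp hB.le
    have hpB : (1 + B) * ‖p‖ * Real.exp B ≤ 1 := by
      rw [le_div_iff₀ (by positivity)] at hp
      linarith
    have hpn := norm_nonneg p
    have hpB1 : (1 + B) * ‖p‖ ≤ 1 := by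
      have : (1 + B) * ‖p‖ ≤ (1 + B) * ‖p‖ * Real.exp B :=
        le_mul_of_one_le_right (by positivity) hE1
      linarith
    have hw1 : |w.1| ≤ B := (norm_fst_le w).trans hw
    have hw2 : |w.2.1| ≤ B := ((norm_fst_le w.2).trans (norm_snd_le w)).trans hw
    have hw3 : |w.2.2| ≤ B := ((norm_snd_le w.2).trans (norm_snd_le w)).trans hw
    have hp1 : |p.1| ≤ ‖p‖ := norm_fst_le p
    have hp2 : |p.2| ≤ ‖p‖ := norm_snd_le p
    have key : ∀ t : ℝ, 0 ≤ t → t ≤ 1 → |p.1 + t * (w.2.2 * p.2)| ≤ (1 + B) * ‖p‖ := by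
      intro t ht0 ht1
      refine (abs_add_le _ _).trans ?_
      rw [abs_mul, abs_mul, abs_of_nonneg ht0]
      have : |w.2.2| * |p.2| ≤ B * ‖p‖ := mul_le_mul hw3 hp2 (abs_nonneg _) hB.le
      have h0 : 0 ≤ |w.2.2| * |p.2| := by positivity
      nlinarith
    have e1 : U w p = (p.1 + w.2.2 * p.2, p.2) := by
      have := u4 w hw (fun t => (p.1 + t * (w.2.2 * p.2), p.2)) (fun t _ => by
        have h1 := ((hasDerivAt_id t).mul_const (w.2.2 * p.2)).const_add p.1
        rw [one_mul] at h1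
        exact h1.prodMk (hasDerivAt_const t p.2)) (fun t ht => by
        rw [Prod.norm_def]
        apply max_le
        · exact (key t ht.1 ht.2).trans hpB1
        · refine hp2.trans ?_
          nlinarith)
      simpa using this
    show D w (U w p) = _
    rw [e1]
    have hexp : ∀ (a t x : ℝ), |a| ≤ B → 0 ≤ t → t ≤ 1 → |x| ≤ (1 + B) * ‖p‖ →
        |Real.exp (t * a) * x| ≤ 1 := by
      intro a t x ha ht0 ht1 hx
      rw [abs_mul, abs_of_pos (Real.exp_pos _)]
      have h1 : t * a ≤ B := by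
        have := le_abs_self a
        nlinarith [abs_nonneg a]
      have h2 := Real.exp_le_exp.2 h1
      have h3 := mul_le_mul h2 hx (abs_nonneg _) hE.le
      linarith
    have := d4 w hw (fun t => (Real.exp (t * w.1) * (p.1 + w.2.2 * p.2), Real.exp (t * w.2.1) * p.2))
      (fun t _ => by
        have g1 : ∀ a x : ℝ, HasDerivAt (fun t => Real.exp (t * a) * x)
            (a * (Real.exp (t * a) * x)) t := by
          intro a x
          have := (((hasDerivAt_id t).mul_const a).exp).mul_const x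
          rw [one_mul] at this
          refine this.congr_deriv ?_
          simp only [id]
          ring
        exact (g1 _ _).prodMk (g1 _ _)) (fun t ht => by
        rw [Prod.norm_def]
        apply max_le
        · apply hexp _ _ _ hw1 ht.1 ht.2
          have := key 1 zero_le_one le_rfl
          rwa [one_mul] at this
        · apply hexp _ _ _ hw2 ht.1 ht.2
          refine hp2.trans ?_
          nlinarith)
    simpa using this
  · intro w p hp
    show D w (U w p) = p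
    rw [u3 w p (by linarith), d3 w p (by linarith)]

set_option maxHeartbeats 1000000 in
theorem germ (hP : S_PERT) : S_GERM := by
  intro h hh h0 hd hc0 hc1 ε₀ hε₀
  let χ : ContDiffBump (0 : P2) := ⟨1, 2, one_pos, by norm_num⟩
  obtain ⟨Cχ, hCχ⟩ := (χ.contDiff (n := 1)).lipschitzWith_of_hasCompactSupport
    χ.hasCompactSupport (by simp)
  set C : ℝ := (Cχ : ℝ) with hC
  have hC0 : 0 ≤ C := Cχ.2
  set η : ℝ := 1 / (2 * (1 + 2 * C)) with hη
  have hη0 : 0 < η := by positivity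
  have hηC : η * (1 + 2 * C) = 1 / 2 := by rw [hη]; field_simp
  let g : ℝ → P2 → P2 := fun t p => h (t, p) - p
  have hg : ContDiff ℝ ∞ (Function.uncurry g) := hh.sub contDiff_snd
  have hG : ContDiff ℝ ∞ (fun q : ℝ × P2 => fderiv ℝ (g q.1) q.2) := by
    have : ContDiff ℝ ∞ (Function.uncurry (fun q : ℝ × P2 => g q.1)) :=
      hg.comp ((contDiff_fst.comp contDiff_fst).prodMk contDiff_snd)
    exact ContDiff.fderiv (f := fun q : ℝ × P2 => g q.1) (g := fun q => q.2) this contDiff_snd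
      (by simp)
  have hgd : ∀ t p, DifferentiableAt ℝ (g t) p := by
    intro t p
    have : ContDiff ℝ ∞ (g t) := hg.comp (contDiff_const.prodMk contDiff_id)
    exact (this.differentiable (by simp)).differentiableAt
  have hhd : ∀ t p, DifferentiableAt ℝ (fun p : P2 => h (t, p)) p := by
    intro t p
    have : ContDiff ℝ ∞ (fun p : P2 => h (t, p)) := hh.comp (contDiff_const.prodMk contDiff_id)
    exact (this.differentiable (by simp)).differentiableAt
  have hG0 : ∀ t, fderiv ℝ (g t) 0 = 0 := by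
    intro t
    have : fderiv ℝ (g t) 0 = fderiv ℝ (fun p : P2 => h (t, p)) 0 - fderiv ℝ (fun p : P2 => p) 0 :=
      fderiv_fun_sub (hhd t 0) differentiableAt_id
    rw [this, hd t, fderiv_fun_id, sub_self]
  have hgc0 : ∀ t, t ≤ 0 → g t = g 0 := by
    intro t ht
    funext p
    show h (t, p) - p = h (0, p) - p
    rw [hc0 t p ht]
  have hgc1 : ∀ t, 1 ≤ t → g t = g 1 := by
    intro t ht
    funext p
    show h (t, p) - p = h (1, p) - p
    rw [hc1 t p ht]
  -- tube
  obtain ⟨e, he, hGe⟩ : ∃ e : ℝ, 0 < e ∧ ∀ t p, ‖p‖ < e → ‖fderiv ℝ (g t) p‖ < η := by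
    have hopen : IsOpen {q : ℝ × P2 | ‖fderiv ℝ (g q.1) q.2‖ < η} :=
      isOpen_lt hG.continuous.norm continuous_const
    obtain ⟨u, v, hu, hv, hsu, hsv, huv⟩ := generalized_tube_lemma
      (isCompact_Icc (a := (0 : ℝ)) (b := 1)) (isCompact_singleton (x := (0 : P2))) hopen (by
        rintro ⟨t, p⟩ ⟨_, hp⟩
        rw [mem_singleton_iff] at hp
        simp only at hp
        subst hp
        show ‖fderiv ℝ (g t) 0‖ < η
        rw [hG0, norm_zero]
        exact hη0)
    obtain ⟨e, he, hev⟩ := Metric.isOpen_iff.1 hv 0 (hsv rfl)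
    refine ⟨e, he, fun t p hp => ?_⟩
    have hpv : p ∈ v := hev (by rwa [mem_ball_zero_iff])
    have h1 : ∀ s ∈ Icc (0 : ℝ) 1, ‖fderiv ℝ (g s) p‖ < η := by
      intro s hs
      have h2 : (s, p) ∈ {q : ℝ × P2 | ‖fderiv ℝ (g q.1) q.2‖ < η} := huv ⟨hsu hs, hpv⟩
      rw [mem_ofPred_eq] at h2
      exact h2
    rcases le_or_gt t 0 with ht | ht
    · rw [hgc0 t ht]; exact h1 0 (by simp)
    rcases le_or_gt 1 t with ht' | ht'
    · rw [hgc1 t ht']; exact h1 1 (by simp)
    · exact h1 t ⟨ht.le, ht'.le⟩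
  set e1 : ℝ := min (e / 4) (ε₀ / 4) with he1
  have he10 : 0 < e1 := by positivity
  have he1e : 4 * e1 ≤ e := by have := min_le_left (e / 4) (ε₀ / 4); linarith
  have he1ε : 4 * e1 ≤ ε₀ := by have := min_le_right (e / 4) (ε₀ / 4); linarith
  have hgn : ∀ t p, ‖p‖ ≤ 2 * e1 → ‖g t p‖ ≤ η * ‖p‖ := by
    intro t p hp
    have h1 := Convex.norm_image_sub_le_of_norm_fderiv_le (𝕜 := ℝ) (f := g t)
      (s := Metric.ball (0 : P2) e) (C := η) (fun x _ => hgd t x)
      (fun x hx => (hGe t x (by rwa [mem_ball_zero_iff] at hx)).le) (convex_ball _ _)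
      (Metric.mem_ball_self he) (by rw [mem_ball_zero_iff]; linarith : p ∈ Metric.ball (0 : P2) e)
    have h2 : g t 0 = 0 := by
      show h (t, 0) - 0 = 0
      rw [h0, sub_zero]
    rw [h2, sub_zero, sub_zero] at h1
    exact h1
  let u : ℝ × P2 → P2 := fun q => χ (e1⁻¹ • q.2) • g q.1 q.2
  have hus : ContDiff ℝ ∞ u :=
    (χ.contDiff.comp (contDiff_snd.const_smul e1⁻¹)).smul hg
  have hχ0 : ∀ p : P2, 2 * e1 ≤ ‖p‖ → χ (e1⁻¹ • p) = 0 := by
    intro p hp
    apply χ.zero_of_le_dist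
    rw [dist_zero_right, norm_smul, norm_inv, Real.norm_of_nonneg he10.le]
    show (2 : ℝ) ≤ e1⁻¹ * ‖p‖
    rw [inv_mul_eq_div, le_div_iff₀ he10]
    exact hp
  have hχ1 : ∀ p : P2, ‖p‖ ≤ e1 → χ (e1⁻¹ • p) = 1 := by
    intro p hp
    apply χ.one_of_mem_closedBall
    rw [mem_closedBall_zero_iff, norm_smul, norm_inv, Real.norm_of_nonneg he10.le]
    show e1⁻¹ * ‖p‖ ≤ 1
    rw [inv_mul_eq_div, div_le_one he10]
    exact hp
  have hud : ∀ (t : ℝ) (p : P2), ‖fderiv ℝ (fun q : P2 => u (t, q)) p‖ ≤ 1 / 2 := by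
    intro t p
    have hχd : HasFDerivAt (fun q : P2 => χ (e1⁻¹ • q))
        ((fderiv ℝ χ (e1⁻¹ • p)).comp (e1⁻¹ • ContinuousLinearMap.id ℝ P2)) p := by
      have h1 : HasFDerivAt (fun q : P2 => e1⁻¹ • q) (e1⁻¹ • ContinuousLinearMap.id ℝ P2) p :=
        (hasFDerivAt_id p).const_smul e1⁻¹
      have h2 : HasFDerivAt χ (fderiv ℝ χ (e1⁻¹ • p)) (e1⁻¹ • p) :=
        ((χ.contDiff (n := 1)).differentiable (by simp)).differentiableAt.hasFDerivAt
      exact h2.comp p h1
    have hfd := hχd.smul (hgd t p).hasFDerivAt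
    rcases le_or_gt ‖p‖ (2 * e1) with hp | hp
    · have hfd' : fderiv ℝ (fun q : P2 => u (t, q)) p = _ := hfd.fderiv
      rw [hfd']
      refine (norm_add_le _ _).trans ?_
      have b1 : ‖χ (e1⁻¹ • p) • fderiv ℝ (g t) p‖ ≤ η := by
        rw [norm_smul, Real.norm_of_nonneg χ.nonneg]
        have := χ.le_one (x := e1⁻¹ • p)
        have h3 := hGe t p (by linarith)
        have h4 := norm_nonneg (fderiv ℝ (g t) p)
        nlinarith [χ.nonneg (x := e1⁻¹ • p)]
      have b2 : ‖((fderiv ℝ χ (e1⁻¹ • p)).comp (e1⁻¹ • ContinuousLinearMap.id ℝ P2)).smulRight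
          (g t p)‖ ≤ 2 * C * η := by
        rw [ContinuousLinearMap.norm_smulRight_apply]
        have h5 : ‖(fderiv ℝ χ (e1⁻¹ • p)).comp (e1⁻¹ • ContinuousLinearMap.id ℝ P2)‖
            ≤ C * e1⁻¹ := by
          refine (ContinuousLinearMap.opNorm_comp_le _ _).trans ?_
          apply mul_le_mul (norm_fderiv_le_of_lipschitz ℝ hCχ) _ (norm_nonneg _) hC0
          rw [norm_smul, norm_inv, Real.norm_of_nonneg he10.le]
          have : ‖ContinuousLinearMap.id ℝ P2‖ ≤ 1 := ContinuousLinearMap.norm_id_le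
          exact mul_le_of_le_one_right (by positivity) this
        have h6 := hgn t p hp
        have h7 : ‖g t p‖ ≤ η * (2 * e1) := h6.trans (mul_le_mul_of_nonneg_left hp hη0.le)
        refine (mul_le_mul h5 h7 (norm_nonneg _) (by positivity)).trans ?_
        have : C * e1⁻¹ * (η * (2 * e1)) = 2 * C * η := by
          field_simp
        rw [this]
      linarith
    · have : (fun q : P2 => u (t, q)) =ᶠ[𝓝 p] fun _ => 0 := by
        have hop : IsOpen {q : P2 | 2 * e1 < ‖q‖} := isOpen_lt continuous_const continuous_norm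
        filter_upwards [hop.mem_nhds hp] with q hq
        show χ (e1⁻¹ • q) • g t q = 0
        rw [hχ0 q (le_of_lt hq), zero_smul]
      rw [this.fderiv_eq, fderiv_fun_const]
      simp
  obtain ⟨M, hM, hMi⟩ := hP u hus hud
  refine ⟨e1, M, he10, by linarith, ?_, hMi, ?_, ?_, ?_, ?_, ?_⟩
  · have : (fun q : ℝ × P2 => M q.1 q.2) = fun q => q.2 + u q := by
      funext q
      exact hM q.1 q.2
    rw [this]
    exact contDiff_snd.add hus
  · intro t p hp
    rw [hM]
    show p + χ (e1⁻¹ • p) • (h (t, p) - p) = h (t, p)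
    rw [hχ1 p hp, one_smul]
    abel
  · intro t p hp
    rw [hM]
    show p + χ (e1⁻¹ • p) • (h (t, p) - p) = p
    rw [hχ0 p (by linarith), zero_smul, add_zero]
  · intro t ht
    ext1 p
    rw [hM]
    show p + χ (e1⁻¹ • p) • (h (t, p) - p) = p
    rcases le_or_gt ‖p‖ ε₀ with hp | hp
    · rw [ht p hp, sub_self, smul_zero, add_zero]
    · rw [hχ0 p (by linarith), zero_smul, add_zero]
  · intro t ht
    ext1 p
    rw [hM, hM]
    show p + χ (e1⁻¹ • p) • g t p = p + χ (e1⁻¹ • p) • g 0 p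
    rw [hgc0 t ht]
  · intro t ht
    ext1 p
    rw [hM, hM]
    show p + χ (e1⁻¹ • p) • g t p = p + χ (e1⁻¹ • p) • g 1 p
    rw [hgc1 t ht]

theorem step : S_STEP := by
  intro F hF ε hε
  obtain ⟨hs, hi, R, hR⟩ := hF
  let H : ℝ × ℝ → P2 → P2 := fun s q => F s.1 ((F s.2)⁻¹ q) - q
  have hH : ContDiff ℝ ∞ (Function.uncurry H) := by
    have h1 : ContDiff ℝ ∞ (fun q : (ℝ × ℝ) × P2 => (F q.1.2)⁻¹ q.2) :=
      hi.comp ((contDiff_snd.comp contDiff_fst).prodMk contDiff_snd)
    have h2 : ContDiff ℝ ∞ (fun q : (ℝ × ℝ) × P2 => F q.1.1 ((F q.1.2)⁻¹ q.2)) :=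
      hs.comp ((contDiff_fst.comp contDiff_fst).prodMk h1)
    exact h2.sub contDiff_snd
  have hD : ContDiff ℝ ∞ (fun q : (ℝ × ℝ) × P2 => fderiv ℝ (H q.1) q.2) := by
    have : ContDiff ℝ ∞ (Function.uncurry (fun q : (ℝ × ℝ) × P2 => H q.1)) :=
      hH.comp ((contDiff_fst.comp contDiff_fst).prodMk contDiff_snd)
    exact ContDiff.fderiv (f := fun q : (ℝ × ℝ) × P2 => H q.1) (g := fun q => q.2) this contDiff_snd
      (by simp)
  have hFi : ∀ t p, R < ‖p‖ → (F t)⁻¹ p = p := by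
    intro t p hp
    rw [Equiv.Perm.inv_eq_iff_eq, hR t p hp]
  have hout : ∀ s : ℝ × ℝ, ∀ p, R < ‖p‖ → H s p = 0 := by
    intro s p hp
    show F s.1 ((F s.2)⁻¹ p) - p = 0
    rw [hFi _ p hp, hR _ p hp, sub_self]
  have houtD : ∀ s : ℝ × ℝ, ∀ p, R < ‖p‖ → fderiv ℝ (H s) p = 0 := by
    intro s p hp
    have : H s =ᶠ[𝓝 p] fun _ => 0 := by
      have hop : IsOpen {q : P2 | R < ‖q‖} := isOpen_lt continuous_const continuous_norm
      filter_upwards [hop.mem_nhds hp] with q hq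
      exact hout s q hq
    rw [this.fderiv_eq, fderiv_fun_const]
    rfl
  have hdiag : ∀ t, H (t, t) = fun _ => 0 := by
    intro t
    funext p
    show F t ((F t)⁻¹ p) - p = 0
    have h1 : F t ((F t)⁻¹ p) = p := (F t).apply_symm_apply p
    rw [h1, sub_self]
  let Ψ : (ℝ × ℝ) × P2 → P2 × (P2 →L[ℝ] P2) := fun q => (H q.1 q.2, fderiv ℝ (H q.1) q.2)
  have hΨ : Continuous Ψ := hH.continuous.prodMk hD.continuous
  have hcomp : IsCompact ((Icc (0 : ℝ) 1 ×ˢ Icc (0 : ℝ) 1) ×ˢ Metric.closedBall (0 : P2) (|R| + 1)) :=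
    (isCompact_Icc.prod isCompact_Icc).prod (isCompact_closedBall _ _)
  have huc := hcomp.uniformContinuousOn_of_continuous hΨ.continuousOn
  rw [Metric.uniformContinuousOn_iff] at huc
  obtain ⟨δ, hδ, hu⟩ := huc ε hε
  obtain ⟨N, hN⟩ := exists_nat_gt (1 / δ)
  have hN1 : (0 : ℝ) < N := lt_trans (by positivity) hN
  have hN0 : 0 < N := by exact_mod_cast hN1
  refine ⟨N, hN0, fun i hi => ?_⟩
  have hi' : (i : ℝ) + 1 ≤ N := by exact_mod_cast hi
  have m1 : ((i : ℝ) + 1) / N ∈ Icc (0 : ℝ) 1 :=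
    ⟨by positivity, (div_le_one hN1).2 hi'⟩
  have m2 : (i : ℝ) / N ∈ Icc (0 : ℝ) 1 := ⟨by positivity, (div_le_one hN1).2 (by linarith)⟩
  have hdist : ∀ p : P2, dist (((((i : ℝ) + 1) / N, (i : ℝ) / N), p) : (ℝ × ℝ) × P2)
      ((((i : ℝ) / N, (i : ℝ) / N), p) : (ℝ × ℝ) × P2) < δ := by
    intro p
    rw [Prod.dist_eq, Prod.dist_eq]
    simp only [dist_self]
    rw [max_eq_left dist_nonneg, max_eq_left dist_nonneg, Real.dist_eq]
    have : ((i : ℝ) + 1) / N - (i : ℝ) / N = 1 / N := by ring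
    rw [this, abs_of_pos (by positivity), div_lt_iff₀ hN1]
    rw [div_lt_iff₀ hδ] at hN
    linarith
  have hmain : ∀ p : P2, ‖H (((i : ℝ) + 1) / N, (i : ℝ) / N) p‖ ≤ ε ∧
      ‖fderiv ℝ (H (((i : ℝ) + 1) / N, (i : ℝ) / N)) p‖ ≤ ε := by
    intro p
    rcases le_or_gt ‖p‖ (|R| + 1) with hp | hp
    · have hp' : p ∈ Metric.closedBall (0 : P2) (|R| + 1) := by rwa [mem_closedBall_zero_iff]
      have h1 := hu _ (show ((((i : ℝ) + 1) / N, (i : ℝ) / N), p) ∈ _ from ⟨⟨m1, m2⟩, hp'⟩) _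
        (show (((i : ℝ) / N, (i : ℝ) / N), p) ∈ _ from ⟨⟨m2, m2⟩, hp'⟩) (hdist p)
      have h2 : Ψ (((i : ℝ) / N, (i : ℝ) / N), p) = 0 := by
        show (H ((i : ℝ) / N, (i : ℝ) / N) p, fderiv ℝ (H ((i : ℝ) / N, (i : ℝ) / N)) p) = 0
        rw [hdiag, fderiv_fun_const]
        rfl
      rw [h2, dist_zero_right] at h1
      exact ⟨(norm_fst_le _).trans h1.le, (norm_snd_le _).trans h1.le⟩
    · have hp' : R < ‖p‖ := by have := le_abs_self R; linarith
      rw [hout _ p hp', houtD _ p hp', norm_zero, norm_zero]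
      exact ⟨hε.le, hε.le⟩
  exact ⟨fun p => (hmain p).1, fun p => (hmain p).2⟩

end Pool.Agent.W509.DQ
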