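import Pool.Agent.W509.DQ.ULIP

set_option autoImplicit false

open scoped ContDiff
open Set Filter Topology Pool.Agent.W133.DQ

namespace Pool.Agent.W509.DQ

theorem u0 (hCUT : S_CUT) (hNV : S_NV) : S_U0 := by
  obtain ⟨C, hC⟩ := cutU hCUT
  obtain ⟨hcut, -, -, -⟩ := hCUT
  obtain ⟨-, -, hN3, -⟩ := hNV
  have hCp := hC.pos
  refine ⟨1 / (4 * (C + 2)), 10 * C + 16, by positivity, by positivity, ?_⟩
  set δ : ℝ := 1 / (4 * (C + 2)) with hδ
  have hδp : 0 < δ := by positivity
  have hδC : (C + 2) * δ = 1 / 4 := by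
    rw [hδ]; field_simp
  intro f B hf hfp hfB d hd0 hd hf1
  have hdC : (C + 2) * d ≤ 1 / 4 := by
    have := mul_le_mul_of_nonneg_left hd (by positivity : 0 ≤ C + 2)
    linarith
  have hCd : 0 ≤ C * d := by positivity
  have hb := strip_bd hf hfp hf1
  have hl := strip_lip hd0 (nb_lip hf hf1)
  have hs := strip_contDiff hf
  have hws : ContDiff ℝ ∞ (fun q : P2 => chi q.1 * strip f q) := hC.chi_s.mul hs
  have hwl : ∀ p q : P2, |chi p.1 * strip f p - chi q.1 * strip f q| ≤ (C + 2) * d * ‖p - q‖ := by
    intro p q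
    have := mul_lip hC.pos hC.chi_b (nb_lip hC.chi_s hC.chi_n) hb hl p q
    refine this.trans (le_of_eq (by ring))
  have hu1l : ∀ p q : P2, |un1 (strip f) p - un1 (strip f) q| ≤ (C + 2) * d * ‖p - q‖ := by
    intro p q
    have := mul_lip hC.pos hC.chi0_b (nb_lip hC.chi0_s hC.chi0_n) hb hl p q
    refine this.trans (le_of_eq (by ring))
  have hmulb : ∀ (η : P2 → ℝ), (∀ p, |η p| ≤ 1) → ∀ (u : P2 → ℝ) (e : ℝ),
      (∀ p, |u p| ≤ e) → ∀ p, |η p * u p| ≤ e := by
    intro η hη u e he p
    rw [abs_mul]
    have a1 := hη p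
    have a2 := he p
    have a3 := abs_nonneg (η p)
    have a4 := abs_nonneg (u p)
    nlinarith
  have hwb := hmulb _ hC.chi_b _ _ hb
  have hu1b : ∀ p, |un1 (strip f) p| ≤ d := hmulb _ hC.chi0_b _ _ hb
  have hw1 : NB 1 (fun q : P2 => chi q.1 * strip f q) (1/2) := by
    apply lip_nb (by norm_num)
    intro p q
    have := hwl p q
    have := norm_nonneg (p - q)
    nlinarith
  obtain ⟨nf1, nf2, nf3, -, nf5⟩ := hN3 _ hws hw1 ⟨d, hwb⟩
  have hnl := nv_lip (L := (C + 2) * d) (by positivity) (by linarith) hwl nf2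
  have hnb : ∀ p, |nv (fun q : P2 => chi q.1 * strip f q) p| ≤ 2 * d := by
    intro p
    have h1 := nf3 p
    have h2 := hwb p
    linarith
  have hstb := star_bd hnb hb
  have hsts := star_contDiff nf1 hs
  have hstl : ∀ p q : P2,
      |Pool.Agent.W133.DQ.star (nv (fun q : P2 => chi q.1 * strip f q)) (strip f) p
        - Pool.Agent.W133.DQ.star (nv (fun q : P2 => chi q.1 * strip f q)) (strip f) q|
        ≤ (4 * C + 10) * d * ‖p - q‖ := by
    intro p q
    have h1 := star_lip (by positivity) (by positivity) hnl hl p q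
    refine h1.trans ?_
    apply mul_le_mul_of_nonneg_right _ (norm_nonneg _)
    have : 2 * d ≤ 1 := by nlinarith
    have h2 : 0 ≤ 2 * ((C + 2) * d) := by positivity
    nlinarith
  have hu2s : ContDiff ℝ ∞ (un2 (strip f)) := hC.kap_s.mul hsts
  have hu1s : ContDiff ℝ ∞ (un1 (strip f)) := hC.chi0_s.mul hs
  have hu2b : ∀ p, |un2 (strip f) p| ≤ 3 * d := by
    intro p
    have := hmulb _ hC.kap_b _ _ hstb p
    refine this.trans (le_of_eq (by ring))
  have hu2l : ∀ p q : P2, |un2 (strip f) p - un2 (strip f) q| ≤ (7 * C + 10) * d * ‖p - q‖ := by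
    intro p q
    have := mul_lip hC.pos hC.kap_b (nb_lip hC.kap_s hC.kap_n) hstb hstl p q
    refine this.trans (le_of_eq (by ring))
  refine ⟨star_contDiff hu1s hu2s, ?_, ?_, ?_⟩
  · rintro p (hp | hp)
    · have e1 : kap p.1 = 0 := by
        apply (hcut (2/5) (3/5) (by norm_num) (by norm_num)).2.2.2
        linarith
      have e2 : chi0 p.1 = 0 := by
        apply (hcut (1/5) (2/5) (by norm_num) (by norm_num)).2.2.2
        rcases le_abs.1 hp with h | h
        · rw [abs_of_nonneg (by linarith)]; linarith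
        · rw [abs_of_nonpos (by linarith)]; linarith
      have e3 : un2 (strip f) p = 0 := by unfold un2; rw [e1]; ring
      unfold SU Pool.Agent.W133.DQ.star
      rw [e3, add_zero]
      unfold un1
      simp only
      rw [e2]
      ring
    · have e0 : ∀ x : ℝ, strip f (x, p.2) = 0 := by
        intro x
        unfold strip
        rw [hfB (x, p.2) hp]
        simp only
        rw [hfB (0, p.2) hp]
        ring
      have e1 : strip f p = 0 := e0 p.1
      have e2 : nv (fun q : P2 => chi q.1 * strip f q) p = 0 := by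
        apply nf5
        rw [e1, mul_zero]
      have e3 : un2 (strip f) p = 0 := by
        unfold un2 Pool.Agent.W133.DQ.star
        rw [e1, add_zero, e2]
        ring
      unfold SU Pool.Agent.W133.DQ.star
      rw [e3, add_zero]
      unfold un1
      rw [e0]
      ring
  · intro p
    have := star_bd hu1b hu2b p
    unfold SU
    refine this.trans ?_
    nlinarith
  · apply lip_nb (by positivity)
    intro p q
    have h1 := star_lip (by positivity) (by positivity) hu1l hu2l p q
    unfold SU
    refine h1.trans ?_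
    apply mul_le_mul_of_nonneg_right _ (norm_nonneg _)
    have h2 : (7 * C + 10) * d ≤ 2 := by nlinarith
    have h3 : 0 ≤ (C + 2) * d := by positivity
    nlinarith

end Pool.Agent.W509.DQ
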