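import Pool.Agent.W509.DQ.Ops

set_option autoImplicit false

open scoped ContDiff
open Set Filter Topology Pool.Agent.W133.DQ

namespace Pool.Agent.W509.DQ

theorem cut_fst_nb (hCUT : S_CUT) :
    (∀ r : ℕ, ∃ C : ℝ, NB r (fun p : P2 => chi p.1) C) ∧
    (∀ r : ℕ, ∃ C : ℝ, NB r (fun p : P2 => chi0 p.1) C) ∧
    (∀ r : ℕ, ∃ C : ℝ, NB r (fun p : P2 => kap p.1) C) := by
  have hc0 := chi0_contDiff hCUT
  have hk := kap_contDiff hCUT
  have hc := chi_contDiff hCUT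
  obtain ⟨h1, h2, h3, h4⟩ := hCUT
  refine ⟨fun r => ?_, fun r => ?_, fun r => ?_⟩
  · obtain ⟨C, hC1, hC2, hC3, hC4, hC5, hC6⟩ := h4 r
    exact ⟨C, nb_comp_fst hc hC1⟩
  · obtain ⟨C, hC1, hC2, hC3, hC4, hC5, hC6⟩ := h4 r
    exact ⟨C, nb_comp_fst hc0 hC3⟩
  · obtain ⟨C, hC1, hC2, hC3, hC4, hC5, hC6⟩ := h4 r
    exact ⟨C, nb_comp_fst hk hC4⟩

theorem u1 (hPOIN : S_POIN) (hCUT : S_CUT) (hNV : S_NV) (hEC : S_EC0) (hEM : S_EM)
    (hEI : S_EI1) : S_U1 := by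
  obtain ⟨C, hC⟩ := cutU hCUT
  obtain ⟨b1, b2, b3⟩ := cut_fst_nb hCUT
  obtain ⟨Cs, hCs, hs⟩ := sm_star hEC
  obtain ⟨Cn, εn, hCn, hεn, hn⟩ := sm_nv hEI hNV
  obtain ⟨Ct, hCt, ht⟩ := sm_strip hPOIN
  obtain ⟨Cx, hCx, hx⟩ := sm_mul hC.chi_s (hEM _ hC.chi_s hC.chi_b b1).1
  obtain ⟨Cx0, hCx0, hx0⟩ := sm_mul hC.chi0_s (hEM _ hC.chi0_s hC.chi0_b b2).1
  obtain ⟨Ck, hCk, hk⟩ := sm_mul hC.kap_s (hEM _ hC.kap_s hC.kap_b b3).1
  -- constants
  have p1 : 0 < Cs := by linarith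
  have p2 : 0 < Cn := by linarith
  have p3 : 0 < Ct := by linarith
  have p4 : 0 < Cx := by linarith
  have p5 : 0 < Cx0 := by linarith
  have p6 : 0 < Ck := by linarith
  -- w : Cx * Ct b ; nv w : Cn Cx Ct b ; star : Cs Cn Cx Ct b ; un2 : Ck Cs Cn Cx Ct b
  -- un1 : Cx0 Ct b
  set K1 : ℝ := Cx * Ct with hK1
  set K2 : ℝ := Cn * K1 with hK2
  set K3 : ℝ := Ck * (Cs * K2) + Cx0 * Ct with hK3
  have q1 : 0 < K1 := by positivity
  have q2 : 0 < K2 := by positivity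
  have q3 : 0 < K3 := by positivity
  refine ⟨min (εn / K1) (min (1 / K2) (1 / K3)), Cs * K3, by positivity, by positivity, ?_⟩
  intro f hf hper b hb hbε h4
  have hε1 : K1 * b ≤ εn := by
    have := hbε.trans (min_le_left _ _)
    rw [le_div_iff₀ q1] at this
    linarith
  have hε2 : K2 * b ≤ 1 := by
    have := (hbε.trans (min_le_right _ _)).trans (min_le_left _ _)
    rw [le_div_iff₀ q2] at this
    linarith
  have hε3 : K3 * b ≤ 1 := by
    have := (hbε.trans (min_le_right _ _)).trans (min_le_right _ _)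
    rw [le_div_iff₀ q3] at this
    linarith
  have s1 : Sm (Ct * b) (strip f) := ht f b hf hper hb h4
  have s2 := hx _ _ (by positivity) s1
  have s2' : Sm (K1 * b) (fun q : P2 => chi q.1 * strip f q) := by
    rw [hK1, mul_assoc]; exact s2
  have s3 := hn _ _ (by positivity) hε1 s2'
  have s3' : Sm (K2 * b) (nv (fun q : P2 => chi q.1 * strip f q)) := by
    rw [hK2, mul_assoc]; exact s3
  have s1' : Sm (K2 * b) (strip f) := by
    apply s1.mono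
    apply mul_le_mul_of_nonneg_right _ hb
    rw [hK2, hK1]
    nlinarith [mul_le_mul hCn hCx zero_le_one p2.le, mul_pos p2 p4]
  have s4 := hs _ _ (K2 * b) (by positivity) hε2 s3' s1'
  have s5 := hk _ _ (by positivity) s4
  have s5' : Sm (K3 * b) (un2 (strip f)) := by
    refine Sm.mono (a := Ck * (Cs * (K2 * b))) s5 ?_
    rw [hK3]
    have : 0 ≤ Cx0 * Ct * b := by positivity
    nlinarith
  have s6 := hx0 _ _ (by positivity) s1
  have s6' : Sm (K3 * b) (un1 (strip f)) := by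
    refine Sm.mono (a := Cx0 * (Ct * b)) s6 ?_
    rw [hK3]
    have : 0 ≤ Ck * (Cs * K2) * b := by positivity
    nlinarith
  have s7 := hs _ _ (K3 * b) (by positivity) hε3 s6' s5'
  intro j hj
  rw [mul_assoc]
  exact s7.2 j hj

theorem u2 (hPOIN : S_POIN) (hCUT : S_CUT) (hNV : S_NV) (hEC : S_EC0) (hEM : S_EM)
    (hEI : S_EI2) : S_U2 := by
  obtain ⟨_, hC⟩ := cutU hCUT
  rename_i C
  obtain ⟨b1, b2, b3⟩ := cut_fst_nb hCUT
  have p0 := hC.pos
  have hPOIN2 := hPOIN.2.2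
  refine ⟨18, 4, 1 / (64 * (1 + C) ^ 2), by norm_num, by norm_num, by positivity, ?_⟩
  set δ : ℝ := 1 / (64 * (1 + C) ^ 2) with hδ
  have hδp : 0 < δ := by positivity
  have hδC : 64 * (1 + C) ^ 2 * δ = 1 := by rw [hδ]; field_simp
  intro r m' hr
  set m : ℝ := 2 * |m'| with hm
  have hm0 : 0 ≤ m := by positivity
  -- w
  obtain ⟨c1, hc1, h1⟩ := lg_mul hC.chi_s hC.chi_b hC.chi_n (hEM _ hC.chi_s hC.chi_b b1).2 r m hm0
  -- un1
  obtain ⟨c2, hc2, h2⟩ := lg_mul hC.chi0_s hC.chi0_b hC.chi0_n (hEM _ hC.chi0_s hC.chi0_b b2).2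
    r m hm0
  -- nv w
  obtain ⟨c3, hc3, h3⟩ := lg_nv hEI hNV r hr c1
  -- star
  obtain ⟨c4, hc4, h4⟩ := lg_star hEC r hr (max m c3) (by positivity)
  -- un2
  obtain ⟨c5, hc5, h5⟩ := lg_mul hC.kap_s hC.kap_b hC.kap_n (hEM _ hC.kap_s hC.kap_b b3).2 r c4 hc4
  -- SU
  obtain ⟨c6, hc6, h6⟩ := lg_star hEC r hr (max c2 c5) (by positivity)
  refine ⟨2 * (2 ^ r * (2 ^ (r + 1) * c1 + c3) + c4 + c5) + 2 ^ r * c2 + c6, by positivity, ?_⟩
  intro f b hf hper hf1 hfm hb hfb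
  have s1 : Lg r (2 * δ) m (2 * b) (strip f) := by
    apply (lg_strip hPOIN hper hf hf1 hfm hfb).mono le_rfl _ le_rfl
    rw [hm]
    have := le_abs_self m'
    linarith
  have hδ1 : (1 + C) ^ 2 * δ = 1 / 64 := by linarith
  have hδ2 : (1 + C) * δ ≤ 1 / 64 := by
    have : (1 + C) * δ ≤ (1 + C) ^ 2 * δ := by
      apply mul_le_mul_of_nonneg_right _ hδp.le
      nlinarith
    linarith
  have hδ3 : δ ≤ 1 / 64 := by nlinarith
  have s2 := h1 _ _ _ (by positivity) s1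
  have s3 := h3 _ _ _ (by linarith) (by positivity) s2
  have s3' := s3.mono le_rfl (le_max_right m c3) le_rfl
  have s1' := s1.mono le_rfl (le_max_left m c3) le_rfl
  have s4 := h4 _ _ _ _ _ _ (by linarith) (by linarith) (by positivity) (by positivity) s3' s1'
  have s5 := h5 _ _ _ (by positivity) s4
  have s6 := h2 _ _ _ (by positivity) s1
  have s5' := s5.mono le_rfl (le_max_right c2 c5) le_rfl
  have s6' := s6.mono le_rfl (le_max_left c2 c5) le_rfl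
  have s7 := h6 _ _ _ _ _ _ (by linarith) (by nlinarith) (by positivity) (by positivity) s6' s5'
  refine ⟨?_, fun j hj => ?_⟩
  · refine nb_mono s7.2.2.2.2 ?_
    have e1 : (4:ℝ) ^ r = 2 ^ r * 2 ^ r := by
      rw [← mul_pow]; norm_num
    have e2 : (2:ℝ) ^ (r + 1) = 2 * 2 ^ r := by ring
    have e3 : (1:ℝ) ≤ 2 ^ r := one_le_pow₀ (by norm_num)
    have e5 : (2:ℝ) ^ r ≤ 2 ^ r * 2 ^ r := by nlinarith
    have e6 : (1:ℝ) ≤ 2 ^ r * 2 ^ r := by nlinarith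
    rw [e1, e2]
    have e7 := mul_le_mul_of_nonneg_right e5 hb
    have e8 := mul_le_mul_of_nonneg_right e6 hb
    nlinarith
  · refine nb_mono (s7.2.2.2.1 j hj) ?_
    have : 0 ≤ 2 * (2 ^ r * (2 ^ (r + 1) * c1 + c3) + c4 + c5) + 2 ^ r * c2 := by positivity
    linarith

end Pool.Agent.W509.DQ
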