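import Pool.Agent.W509.DQ.Tools

set_option autoImplicit false

open scoped ContDiff
open Set Filter Topology Pool.Agent.W133.DQ

namespace Pool.Agent.W509.DQ

/-- everything about the cut-offs used in the stage U. -/
structure CutU (C : ℝ) : Prop where
  pos : 0 ≤ C
  chi_s : ContDiff ℝ ∞ (fun p : P2 => chi p.1)
  chi0_s : ContDiff ℝ ∞ (fun p : P2 => chi0 p.1)
  kap_s : ContDiff ℝ ∞ (fun p : P2 => kap p.1)
  chi_b : ∀ p : P2, |chi p.1| ≤ 1
  chi0_b : ∀ p : P2, |chi0 p.1| ≤ 1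
  kap_b : ∀ p : P2, |kap p.1| ≤ 1
  chi_n : NB 1 (fun p : P2 => chi p.1) C
  chi0_n : NB 1 (fun p : P2 => chi0 p.1) C
  kap_n : NB 1 (fun p : P2 => kap p.1) C

theorem chi0_contDiff (hCUT : S_CUT) : ContDiff ℝ ∞ chi0 := by
  obtain ⟨h1, -, -, -⟩ := hCUT
  have := (h1 (1/5) (2/5) (by norm_num) (by norm_num)).1
  exact this.comp (contDiff_id.sub contDiff_const)

theorem kap_contDiff (hCUT : S_CUT) : ContDiff ℝ ∞ kap := by
  obtain ⟨h1, -, -, -⟩ := hCUT
  exact (h1 (2/5) (3/5) (by norm_num) (by norm_num)).1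

theorem chi_contDiff (hCUT : S_CUT) : ContDiff ℝ ∞ chi := hCUT.2.1.1

theorem cutU (hCUT : S_CUT) : ∃ C, CutU C := by
  have hc0 := chi0_contDiff hCUT
  have hk := kap_contDiff hCUT
  have hc := chi_contDiff hCUT
  obtain ⟨h1, h2, h3, h4⟩ := hCUT
  obtain ⟨C, hC1, hC2, hC3, hC4, hC5, hC6⟩ := h4 1
  refine ⟨C, (norm_nonneg _).trans (hC1 0), hc.comp contDiff_fst, hc0.comp contDiff_fst,
    hk.comp contDiff_fst, ?_, ?_, ?_, nb_comp_fst hc hC1, nb_comp_fst hc0 hC3,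
    nb_comp_fst hk hC4⟩
  · intro p
    rw [abs_of_nonneg (h2.2.1 _).1]
    exact (h2.2.1 _).2
  · intro p
    have := (h1 (1/5) (2/5) (by norm_num) (by norm_num)).2.1 (p.1 - 1/2)
    unfold chi0
    rw [abs_of_nonneg this.1]
    exact this.2
  · intro p
    have := (h1 (2/5) (3/5) (by norm_num) (by norm_num)).2.1 p.1
    unfold kap
    rw [abs_of_nonneg this.1]
    exact this.2

theorem ulip (hCUT : S_CUT) (hNV : S_NV) : S_ULIP := by
  obtain ⟨C, hC⟩ := cutU hCUT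
  obtain ⟨-, -, hN3, hN4⟩ := hNV
  have hCp := hC.pos
  refine ⟨1 / (4 * (C + 2)), 11, by positivity, by norm_num, ?_⟩
  set δ : ℝ := 1 / (4 * (C + 2)) with hδ
  have hδp : 0 < δ := by positivity
  have hδC : 2 * δ + C * δ = 1 / 4 := by
    rw [hδ]; field_simp; ring
  intro f h hf hh hfp hhp hf1 hh1 d hd
  have hd0 : 0 ≤ d := (abs_nonneg _).trans (hd 0)
  -- basic facts about f' for a single f
  have key : ∀ g : P2 → ℝ, ContDiff ℝ ∞ g → (∀ p : P2, g (p.1 + 1, p.2) = g p) → NB 1 g δ →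
      ContDiff ℝ ∞ (fun q : P2 => chi q.1 * strip g q) ∧
      (∀ p q : P2, |chi p.1 * strip g p - chi q.1 * strip g q| ≤ 1/4 * ‖p - q‖) ∧
      (∀ p q : P2, |un1 (strip g) p - un1 (strip g) q| ≤ 1/4 * ‖p - q‖) ∧
      (∀ p, |chi p.1 * strip g p| ≤ δ) ∧ NB 1 (fun q : P2 => chi q.1 * strip g q) (1/2) := by
    intro g hg hgp hg1
    have hb := strip_bd hg hgp hg1
    have hl := strip_lip hδp.le (nb_lip hg hg1)
    have e1 : ∀ p q : P2, |chi p.1 * strip g p - chi q.1 * strip g q| ≤ 1/4 * ‖p - q‖ := by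
      intro p q
      have := mul_lip hC.pos hC.chi_b (nb_lip hC.chi_s hC.chi_n) hb hl p q
      rwa [hδC] at this
    have e2 : ∀ p q : P2, |un1 (strip g) p - un1 (strip g) q| ≤ 1/4 * ‖p - q‖ := by
      intro p q
      have := mul_lip hC.pos hC.chi0_b (nb_lip hC.chi0_s hC.chi0_n) hb hl p q
      rwa [hδC] at this
    refine ⟨hC.chi_s.mul (strip_contDiff hg), e1, e2, ?_, ?_⟩
    · intro p
      rw [abs_mul]
      have h1 := hC.chi_b p
      have h2 := hb p
      have h3 := abs_nonneg (chi p.1)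
      have h4 := abs_nonneg (strip g p)
      nlinarith
    · apply lip_nb (by norm_num)
      intro p q
      have := e1 p q
      have := norm_nonneg (p - q)
      linarith
  obtain ⟨f1, f2, f3, f4, f5⟩ := key f hf hfp hf1
  obtain ⟨h1, h2, h3, h4, h5⟩ := key h hh hhp hh1
  have hs : ∀ p, |strip f p - strip h p| ≤ 2 * d := by
    intro p
    unfold strip
    have e1 := hd p
    have e2 := hd (0, p.2)
    have e3 : f p - f (0, p.2) - (h p - h (0, p.2)) = (f p - h p) - (f (0, p.2) - h (0, p.2)) := by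
      ring
    rw [e3]
    refine (abs_sub _ _).trans ?_
    linarith
  have hmul : ∀ (η : P2 → ℝ), (∀ p, |η p| ≤ 1) → ∀ (u v : P2 → ℝ) (e : ℝ),
      (∀ p, |u p - v p| ≤ e) → ∀ p, |η p * u p - η p * v p| ≤ e := by
    intro η hη u v e he p
    rw [← mul_sub, abs_mul]
    have a1 := hη p
    have a2 := he p
    have a3 := abs_nonneg (η p)
    have a4 := abs_nonneg (u p - v p)
    nlinarith
  have hw := hmul _ hC.chi_b _ _ _ hs
  have hnv := hN4 _ _ f1 h1 f5 h5 ⟨δ, f4⟩ ⟨δ, h4⟩ (2 * d) hw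
  obtain ⟨nf1, nf2, -⟩ := hN3 _ f1 f5 ⟨δ, f4⟩
  have nl := nv_lip (L := 1/4) (by norm_num) (by norm_num) f2 nf2
  have hst := star_diff (a := 1/2) (by norm_num)
    (fun p q => (nl p q).trans (by rw [show (2:ℝ) * (1/4) = 1/2 by norm_num])) hnv hs
  have hun2 : ∀ p, |un2 (strip f) p - un2 (strip h) p| ≤ 7 * d := by
    intro p
    have := hmul _ hC.kap_b _ _ _ hst p
    unfold un2
    refine this.trans ?_
    linarith
  have hun1 : ∀ p, |un1 (strip f) p - un1 (strip h) p| ≤ 2 * d := hmul _ hC.chi0_b _ _ _ hs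
  intro p
  have := star_diff (a := 1/4) (by norm_num) f3 hun1 hun2 p
  unfold SU
  linarith

end Pool.Agent.W509.DQ
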