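import Pool.Agent.W509.DQ.ULIP

set_option autoImplicit false

open scoped ContDiff
open Set Filter Topology Pool.Agent.W133.DQ

namespace Pool.Agent.W509.DQ

theorem exists_unif (P : ℕ → ℝ → Prop) (hm : ∀ j a b, P j a → a ≤ b → P j b) (r : ℕ)
    (h : ∀ j, j < r → ∃ c, P j c) : ∃ c : ℝ, 0 ≤ c ∧ ∀ j, j < r → P j c := by
  induction r with
  | zero => exact ⟨0, le_refl _, fun j hj => absurd hj (by omega)⟩
  | succ r ih =>
    obtain ⟨c, hc0, hc⟩ := ih (fun j hj => h j (by omega))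
    obtain ⟨c', hc'⟩ := h r (by omega)
    refine ⟨max c c', hc0.trans (le_max_left _ _), fun j hj => ?_⟩
    rcases Nat.lt_succ_iff_lt_or_eq.1 hj with h1 | h1
    · exact hm _ _ _ (hc j h1) (le_max_left _ _)
    · subst h1
      exact hm _ _ _ hc' (le_max_right _ _)

/-- large regime predicate -/
def Lg (r : ℕ) (δ m b : ℝ) (u : P2 → ℝ) : Prop :=
  ContDiff ℝ ∞ u ∧ (∀ p, |u p| ≤ δ) ∧ NB 1 u δ ∧ (∀ j, j < r → NB j u m) ∧ NB r u b

theorem Lg.mono {r : ℕ} {δ m b δ' m' b' : ℝ} {u : P2 → ℝ} (h : Lg r δ m b u) (h1 : δ ≤ δ')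
    (h2 : m ≤ m') (h3 : b ≤ b') : Lg r δ' m' b' u :=
  ⟨h.1, fun p => (h.2.1 p).trans h1, nb_mono h.2.2.1 h1, fun j hj => nb_mono (h.2.2.2.1 j hj) h2,
    nb_mono h.2.2.2.2 h3⟩

theorem lg_star (hEC : S_EC0) (r : ℕ) (hr : 2 ≤ r) (m : ℝ) (hm : 0 ≤ m) : ∃ c : ℝ, 0 ≤ c ∧
    ∀ (u v : P2 → ℝ) (δu δv bu bv : ℝ), δu ≤ 1 → δv ≤ 1 → 0 ≤ bu → 0 ≤ bv →
      Lg r δu m bu u → Lg r δv m bv v →
      Lg r (2 * (δu + δv)) c (2 * bv + 2 ^ r * bu + c) (Pool.Agent.W133.DQ.star u v) := by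
  -- lower orders
  obtain ⟨c1, hc1, hc1'⟩ := exists_unif (fun j c => ∀ (u v : P2 → ℝ) (δu δv bu bv : ℝ), δu ≤ 1 →
      δv ≤ 1 → Lg r δu m bu u → Lg r δv m bv v → NB j (Pool.Agent.W133.DQ.star u v) c)
    (fun j a b h hab u v δu δv bu bv h1 h2 h3 h4 => nb_mono (h u v δu δv bu bv h1 h2 h3 h4) hab) r
    (by
      intro j hj
      rcases Nat.eq_zero_or_pos j with h0 | h0
      · subst h0
        refine ⟨2, fun u v δu δv bu bv h1 h2 h3 h4 => ?_⟩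
        rw [nb_zero]
        intro p
        have := star_bd h3.2.1 h4.2.1 p
        linarith
      · obtain ⟨C, hC0, hC⟩ := hEC j h0
        refine ⟨2 * m + 2 ^ j * m + C * m ^ 2 * (1 + m) ^ j,
          fun u v δu δv bu bv h1 h2 h3 h4 => ?_⟩
        have hu0 := nb_nonneg h3.2.2.1
        have hv0 := nb_nonneg h4.2.2.1
        have := hC u v h3.1 h4.1 m δu δv m m hm hu0 hv0 hm hm
          (fun i _ hi2 => ⟨h3.2.2.2.1 i (by omega), h4.2.2.2.1 i (by omega)⟩) h3.2.2.1 h4.2.2.1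
          (h3.2.2.2.1 j hj) (h4.2.2.2.1 j hj)
        refine nb_mono this ?_
        have e1 : (1 + δv) ^ j ≤ 2 ^ j := pow_le_pow_left₀ (by linarith) (by linarith) _
        have e2 := mul_le_mul_of_nonneg_right e1 hm
        have e3 : (1 + δu) * m ≤ 2 * m := mul_le_mul_of_nonneg_right (by linarith) hm
        linarith)
  obtain ⟨C, hC0, hC⟩ := hEC r (by omega)
  refine ⟨c1 + C * m ^ 2 * (1 + m) ^ r, by positivity, ?_⟩
  intro u v δu δv bu bv h1 h2 hbu hbv h3 h4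
  have hu0 := nb_nonneg h3.2.2.1
  have hv0 := nb_nonneg h4.2.2.1
  have hX : 0 ≤ C * m ^ 2 * (1 + m) ^ r := by positivity
  refine ⟨star_contDiff h3.1 h4.1, ?_, ?_, ?_, ?_⟩
  · intro p
    have := star_bd h3.2.1 h4.2.1 p
    linarith
  · refine nb_mono (star_nb_one h3.1 h4.1 h3.2.2.1 h4.2.2.1) ?_
    nlinarith
  · intro j hj
    exact nb_mono (hc1' j hj u v δu δv bu bv h1 h2 h3 h4) (by linarith)
  · have := hC u v h3.1 h4.1 m δu δv bu bv hm hu0 hv0 hbu hbv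
      (fun i _ hi2 => ⟨h3.2.2.2.1 i (by omega), h4.2.2.2.1 i (by omega)⟩) h3.2.2.1 h4.2.2.1
      h3.2.2.2.2 h4.2.2.2.2
    refine nb_mono this ?_
    have e1 : (1 + δv) ^ r ≤ 2 ^ r := pow_le_pow_left₀ (by linarith) (by linarith) _
    have e2 := mul_le_mul_of_nonneg_right e1 hbu
    have e3 : (1 + δu) * bv ≤ 2 * bv := mul_le_mul_of_nonneg_right (by linarith) hbv
    linarith

theorem lg_nv (hEI : S_EI2) (hNV : S_NV) (r : ℕ) (hr : 2 ≤ r) (m : ℝ) : ∃ c : ℝ, 0 ≤ c ∧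
    ∀ (u : P2 → ℝ) (δ b : ℝ), δ ≤ 1 / 4 → 0 ≤ b → Lg r δ m b u →
      Lg r (2 * δ) c (2 ^ (r + 1) * b + c) (nv u) := by
  obtain ⟨c, hc0, hc⟩ := hEI r hr m
  obtain ⟨-, -, hN3, -⟩ := hNV
  refine ⟨c + 1, by linarith, ?_⟩
  intro u δ b hδ hb h
  have hδ0 := nb_nonneg h.2.2.1
  have hu2 : NB 1 u (1 / 2) := nb_mono h.2.2.1 (by linarith)
  obtain ⟨n1, n2, n3, -, -⟩ := hN3 u h.1 hu2 ⟨δ, h.2.1⟩
  obtain ⟨e1, e2⟩ := hc u h.1 ⟨δ, h.2.1⟩ b hb (nb_mono h.2.2.1 (by linarith)) 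
    (fun j _ hj => h.2.2.2.1 j hj) h.2.2.2.2
  have hs : ∀ p, |nv u p| ≤ 2 * δ := by
    intro p
    have := n3 p
    have := h.2.1 p
    linarith
  refine ⟨n1, hs, ?_, ?_, nb_mono e1 (by linarith)⟩
  · exact lip_nb (by linarith) (nv_lip hδ0 (by linarith) (nb_lip h.1 h.2.2.1) n2)
  · intro j hj
    rcases Nat.eq_zero_or_pos j with h0 | h0
    · subst h0
      rw [nb_zero]
      intro p
      have := hs p
      linarith
    · exact nb_mono (e2 j h0 hj) (by linarith)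

theorem lg_mul {η : P2 → ℝ} (hη : ContDiff ℝ ∞ η) (hη1 : ∀ p, |η p| ≤ 1) {C : ℝ}
    (hηC : NB 1 η C)
    (h2 : ∀ (r : ℕ) (m : ℝ), ∃ c : ℝ, 0 ≤ c ∧ ∀ (u : P2 → ℝ) (b : ℝ), ContDiff ℝ ∞ u → 0 ≤ b →
      (∀ j : ℕ, j < r → NB j u m) → NB r u b → NB r (fun p => η p * u p) (b + c))
    (r : ℕ) (m : ℝ) (hm : 0 ≤ m) : ∃ c : ℝ, 0 ≤ c ∧
    ∀ (u : P2 → ℝ) (δ b : ℝ), 0 ≤ b → Lg r δ m b u →
      Lg r ((1 + C) * δ) c (b + c) (fun p => η p * u p) := by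
  have hC := nb_nonneg hηC
  obtain ⟨c1, hc1, hc1'⟩ := exists_unif (fun j c => ∀ (u : P2 → ℝ) (δ b : ℝ), Lg r δ m b u →
      NB j (fun p => η p * u p) c)
    (fun j a b h hab u δ b' h1 => nb_mono (h u δ b' h1) hab) r
    (by
      intro j hj
      obtain ⟨c, hc0, hc⟩ := h2 j m
      exact ⟨m + c, fun u δ b h1 => hc u m h1.1 hm (fun i hi => h1.2.2.2.1 i (by omega))
        (h1.2.2.2.1 j hj)⟩)
  obtain ⟨c2, hc2, hc2'⟩ := h2 r m
  refine ⟨c1 + c2, by linarith, ?_⟩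
  intro u δ b hb h
  have hδ := nb_nonneg h.2.2.1
  refine ⟨hη.mul h.1, ?_, ?_, ?_, ?_⟩
  · intro p
    rw [abs_mul]
    have a1 := hη1 p
    have a2 := h.2.1 p
    have a3 := abs_nonneg (η p)
    have a4 := abs_nonneg (u p)
    have a5 : 0 ≤ C * δ := by positivity
    nlinarith
  · apply lip_nb (by positivity)
    intro p q
    have := mul_lip hC hη1 (nb_lip hη hηC) h.2.1 (nb_lip h.1 h.2.2.1) p q
    refine this.trans (le_of_eq (by ring))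
  · intro j hj
    exact nb_mono (hc1' j hj u δ b h) (by linarith)
  · exact nb_mono (hc2' u b h.1 hb h.2.2.2.1 h.2.2.2.2) (by linarith)

theorem lg_strip (hP : S_POIN) {f : P2 → ℝ} (hper : ∀ p : P2, f (p.1 + 1, p.2) = f p)
    {r : ℕ} {δ m b : ℝ} (hf : ContDiff ℝ ∞ f) (h1 : NB 1 f δ) (hm : ∀ j, j < r → NB j f m)
    (hb : NB r f b) : Lg r (2 * δ) (2 * m) (2 * b) (strip f) := by
  have hδ := nb_nonneg h1
  refine ⟨strip_contDiff hf, ?_, strip_nb_one hf h1, fun j hj => hP.2.2 f j m hf (hm j hj),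
    hP.2.2 f r b hf hb⟩
  intro p
  have := strip_bd hf hper h1 p
  linarith

/-! ### small regime -/

def Sm (a : ℝ) (u : P2 → ℝ) : Prop := ContDiff ℝ ∞ u ∧ ∀ j : ℕ, j ≤ 4 → NB j u a

theorem Sm.mono {a b : ℝ} {u : P2 → ℝ} (h : Sm a u) (hab : a ≤ b) : Sm b u :=
  ⟨h.1, fun j hj => nb_mono (h.2 j hj) hab⟩

theorem sm_star (hEC : S_EC0) : ∃ C : ℝ, 1 ≤ C ∧ ∀ (u v : P2 → ℝ) (a : ℝ), 0 ≤ a → a ≤ 1 →
    Sm a u → Sm a v → Sm (C * a) (Pool.Agent.W133.DQ.star u v) := by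
  obtain ⟨c1, hc1, hc1'⟩ := exists_unif (fun j c => ∀ (u v : P2 → ℝ) (a : ℝ), 0 ≤ a → a ≤ 1 →
      Sm a u → Sm a v → NB j (Pool.Agent.W133.DQ.star u v) (c * a))
    (fun j c b h hab u v a h1 h2 h3 h4 => nb_mono (h u v a h1 h2 h3 h4)
      (mul_le_mul_of_nonneg_right hab h1)) 5
    (by
      intro j hj
      rcases Nat.eq_zero_or_pos j with h0 | h0
      · subst h0
        refine ⟨2, fun u v a h1 h2 h3 h4 => ?_⟩
        rw [nb_zero]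
        intro p
        have := star_bd (nb_zero.1 (h3.2 0 (by norm_num))) (nb_zero.1 (h4.2 0 (by norm_num))) p
        linarith
      · obtain ⟨C, hC0, hC⟩ := hEC j h0
        refine ⟨2 + 2 ^ j + C * 2 ^ j, fun u v a h1 h2 h3 h4 => ?_⟩
        have := hC u v h3.1 h4.1 a a a a a h1 h1 h1 h1 h1
          (fun i _ hi2 => ⟨h3.2 i (by omega), h4.2 i (by omega)⟩) (h3.2 1 (by norm_num))
          (h4.2 1 (by norm_num)) (h3.2 j (by omega)) (h4.2 j (by omega))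
        refine nb_mono this ?_
        have e1 : (1 + a) ^ j ≤ 2 ^ j := pow_le_pow_left₀ (by linarith) (by linarith) _
        have e2 := mul_le_mul_of_nonneg_right e1 h1
        have e3 : (1 + a) * a ≤ 2 * a := mul_le_mul_of_nonneg_right (by linarith) h1
        have e4 : a ^ 2 * (1 + a) ^ j ≤ a * 2 ^ j := by
          apply mul_le_mul _ e1 (by positivity) h1
          nlinarith
        have e5 := mul_le_mul_of_nonneg_left e4 hC0
        nlinarith)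
  refine ⟨c1 + 1, by linarith, ?_⟩
  intro u v a h1 h2 h3 h4
  refine ⟨star_contDiff h3.1 h4.1, fun j hj => ?_⟩
  exact nb_mono (hc1' j (by omega) u v a h1 h2 h3 h4)
    (mul_le_mul_of_nonneg_right (by linarith) h1)

theorem sm_nv (hEI : S_EI1) (hNV : S_NV) : ∃ C ε : ℝ, 1 ≤ C ∧ 0 < ε ∧ ∀ (u : P2 → ℝ) (a : ℝ),
    0 ≤ a → a ≤ ε → Sm a u → Sm (C * a) (nv u) := by
  obtain ⟨C, ε, hC, hε, h⟩ := hEI
  obtain ⟨-, -, hN3, -⟩ := hNV
  refine ⟨C + 2, min ε (1 / 2), by linarith, by positivity, ?_⟩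
  intro u a h1 h2 h3
  have hb := nb_zero.1 (h3.2 0 (by norm_num))
  have ha2 : a ≤ 1 / 2 := h2.trans (min_le_right _ _)
  have hε2 : a ≤ ε := h2.trans (min_le_left _ _)
  obtain ⟨n1, n2, n3, -, -⟩ := hN3 u h3.1 (nb_mono (h3.2 1 (by norm_num)) ha2) ⟨a, hb⟩
  refine ⟨n1, fun j hj => ?_⟩
  rcases Nat.eq_zero_or_pos j with h0 | h0
  · subst h0
    rw [nb_zero]
    intro p
    have e1 := n3 p
    have e2 := hb p
    nlinarith
  · have := h u h3.1 ⟨a, hb⟩ a h1 hε2 (fun i _ hi => h3.2 i hi) j h0 hj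
    exact nb_mono this (by nlinarith)

theorem sm_mul {η : P2 → ℝ} (hη : ContDiff ℝ ∞ η)
    (h1 : ∃ C : ℝ, 0 ≤ C ∧ ∀ (u : P2 → ℝ) (a : ℝ), ContDiff ℝ ∞ u → 0 ≤ a → ∀ k : ℕ, k ≤ 4 →
    (∀ j : ℕ, j ≤ k → NB j u a) → NB k (fun p => η p * u p) (C * a)) :
    ∃ C : ℝ, 1 ≤ C ∧ ∀ (u : P2 → ℝ) (a : ℝ), 0 ≤ a → Sm a u → Sm (C * a) (fun p => η p * u p) := by
  obtain ⟨C, hC, h⟩ := h1
  refine ⟨C + 1, by linarith, fun u a ha hu => ⟨hη.mul hu.1, fun k hk => ?_⟩⟩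
  exact nb_mono (h u a hu.1 ha k hk (fun j hj => hu.2 j (by omega))) (by nlinarith)

theorem sm_strip (hP : S_POIN) : ∃ C : ℝ, 1 ≤ C ∧ ∀ (f : P2 → ℝ) (b : ℝ), ContDiff ℝ ∞ f →
    (∀ p : P2, f (p.1 + 1, p.2) = f p) → 0 ≤ b → NB 4 f b → Sm (C * b) (strip f) := by
  refine ⟨2 * 4 ^ 10, by norm_num, fun f b hf hper hb h4 => ⟨strip_contDiff hf, ?_⟩⟩
  have hs := strip_contDiff hf
  have hsp := strip_per hper
  have hs0 : ∀ y : ℝ, strip f (0, y) = 0 := fun y => by unfold strip; simp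
  have e4 := hP.2.2 f 4 b hf h4
  have e3 := hP.2.1 (strip f) 3 _ hs hsp hs0 e4
  have e2 := hP.2.1 (strip f) 2 _ hs hsp hs0 e3
  have e1 := hP.2.1 (strip f) 1 _ hs hsp hs0 e2
  have e0 := hP.2.1 (strip f) 0 _ hs hsp hs0 e1
  intro j hj
  interval_cases j
  · exact nb_mono e0 (by norm_num; nlinarith)
  · exact nb_mono e1 (by norm_num; nlinarith)
  · exact nb_mono e2 (by norm_num; nlinarith)
  · exact nb_mono e3 (by norm_num; nlinarith)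
  · exact nb_mono e4 (by norm_num; nlinarith)

end Pool.Agent.W509.DQ
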