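import Pool.Agent.W133.DQ.StB

set_option autoImplicit false

open scoped ContDiff
open Set Filter Topology Pool.Agent.W133.DQ

namespace Pool.Agent.W509.DQ

theorem nb_mono {r : ℕ} {u : P2 → ℝ} {a b : ℝ} (h : NB r u a) (hab : a ≤ b) : NB r u b :=
  fun p => (h p).trans hab

theorem nb_zero {u : P2 → ℝ} {b : ℝ} : NB 0 u b ↔ ∀ p, |u p| ≤ b := by
  simp only [NB, norm_iteratedFDeriv_zero, Real.norm_eq_abs]

theorem nb_nonneg {r : ℕ} {u : P2 → ℝ} {b : ℝ} (h : NB r u b) : 0 ≤ b :=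
  (norm_nonneg _).trans (h 0)

theorem nb_one {u : P2 → ℝ} {b : ℝ} : NB 1 u b ↔ ∀ p, ‖fderiv ℝ u p‖ ≤ b := by
  simp only [NB, norm_iteratedFDeriv_one]

theorem nb_lip {u : P2 → ℝ} (hu : ContDiff ℝ ∞ u) {b : ℝ} (h : NB 1 u b) (p q : P2) :
    |u p - u q| ≤ b * ‖p - q‖ := by
  rw [nb_one] at h
  have := Convex.norm_image_sub_le_of_norm_fderiv_le (𝕜 := ℝ) (f := u) (s := Set.univ) (C := b)
    (fun x _ => (hu.differentiable (by simp)).differentiableAt) (fun x _ => h x) convex_univ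
    (Set.mem_univ q) (Set.mem_univ p)
  simpa [Real.norm_eq_abs] using this

theorem lip_nb {u : P2 → ℝ} {b : ℝ} (hb : 0 ≤ b)
    (h : ∀ p q : P2, |u p - u q| ≤ b * ‖p - q‖) : NB 1 u b := by
  rw [nb_one]
  intro p
  have hl : LipschitzWith ⟨b, hb⟩ u := by
    apply LipschitzWith.of_dist_le_mul
    intro x y
    rw [Real.dist_eq, dist_eq_norm]
    exact h x y
  exact norm_fderiv_le_of_lipschitz ℝ hl

theorem norm_sub_le_fst {p q : P2} : |p.1 - q.1| ≤ ‖p - q‖ := by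
  have := norm_fst_le (p - q)
  simpa [Real.norm_eq_abs] using this

theorem norm_sub_le_snd {p q : P2} : |p.2 - q.2| ≤ ‖p - q‖ := by
  have := norm_snd_le (p - q)
  simpa [Real.norm_eq_abs] using this

theorem norm_mk_le {a b c : ℝ} (ha : |a| ≤ c) (hb : |b| ≤ c) : ‖((a, b) : P2)‖ ≤ c := by
  rw [Prod.norm_def]
  exact max_le ha hb

theorem star_contDiff {u v : P2 → ℝ} (hu : ContDiff ℝ ∞ u) (hv : ContDiff ℝ ∞ v) :
    ContDiff ℝ ∞ (star u v) := by
  unfold Pool.Agent.W133.DQ.star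
  apply hv.add
  apply hu.comp
  exact (contDiff_fst.add hv).prodMk contDiff_snd

theorem star_bd {u v : P2 → ℝ} {a b : ℝ} (hu : ∀ p, |u p| ≤ a) (hv : ∀ p, |v p| ≤ b) (p : P2) :
    |star u v p| ≤ b + a := by
  unfold Pool.Agent.W133.DQ.star
  exact (abs_add_le _ _).trans (add_le_add (hv p) (hu _))

theorem star_lip {u v : P2 → ℝ} {a b : ℝ} (ha : 0 ≤ a) (hb : 0 ≤ b)
    (hu : ∀ p q : P2, |u p - u q| ≤ a * ‖p - q‖) (hv : ∀ p q : P2, |v p - v q| ≤ b * ‖p - q‖)
    (p q : P2) : |star u v p - star u v q| ≤ (b + a * (1 + b)) * ‖p - q‖ := by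
  unfold Pool.Agent.W133.DQ.star
  have h1 := hv p q
  have h2 := hu (p.1 + v p, p.2) (q.1 + v q, q.2)
  have h3 : ‖((p.1 + v p, p.2) : P2) - (q.1 + v q, q.2)‖ ≤ (1 + b) * ‖p - q‖ := by
    rw [Prod.mk_sub_mk]
    apply norm_mk_le
    · have : p.1 + v p - (q.1 + v q) = (p.1 - q.1) + (v p - v q) := by ring
      rw [this]
      refine (abs_add_le _ _).trans ?_
      have := norm_sub_le_fst (p := p) (q := q)
      nlinarith
    · have := norm_sub_le_snd (p := p) (q := q)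
      have := norm_nonneg (p - q)
      nlinarith
  have h4 : v p + u (p.1 + v p, p.2) - (v q + u (q.1 + v q, q.2))
      = (v p - v q) + (u (p.1 + v p, p.2) - u (q.1 + v q, q.2)) := by ring
  rw [h4]
  refine (abs_add_le _ _).trans ?_
  have h5 := mul_le_mul_of_nonneg_left h3 ha
  linarith

theorem star_nb_one {u v : P2 → ℝ} (hu : ContDiff ℝ ∞ u) (hv : ContDiff ℝ ∞ v) {a b : ℝ}
    (h1 : NB 1 u a) (h2 : NB 1 v b) : NB 1 (star u v) (b + a * (1 + b)) := by
  have ha := nb_nonneg h1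
  have hb := nb_nonneg h2
  exact lip_nb (by positivity) (star_lip ha hb (nb_lip hu h1) (nb_lip hv h2))

theorem star_diff {u v u' v' : P2 → ℝ} {a d e : ℝ} (ha : 0 ≤ a)
    (hu : ∀ p q : P2, |u p - u q| ≤ a * ‖p - q‖)
    (hd : ∀ p, |u p - u' p| ≤ d) (he : ∀ p, |v p - v' p| ≤ e) (p : P2) :
    |star u v p - star u' v' p| ≤ e + a * e + d := by
  unfold Pool.Agent.W133.DQ.star
  have h1 := he p
  have h2 := hu (p.1 + v p, p.2) (p.1 + v' p, p.2)
  have h3 := hd (p.1 + v' p, p.2)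
  have h4 : ‖((p.1 + v p, p.2) : P2) - (p.1 + v' p, p.2)‖ ≤ e := by
    rw [Prod.mk_sub_mk]
    apply norm_mk_le
    · have : p.1 + v p - (p.1 + v' p) = v p - v' p := by ring
      rw [this]; exact h1
    · simpa using (abs_nonneg _).trans h1
  have h5 := mul_le_mul_of_nonneg_left h4 ha
  have h6 : v p + u (p.1 + v p, p.2) - (v' p + u' (p.1 + v' p, p.2))
      = (v p - v' p) + ((u (p.1 + v p, p.2) - u (p.1 + v' p, p.2))
        + (u (p.1 + v' p, p.2) - u' (p.1 + v' p, p.2))) := by ring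
  rw [h6]
  refine (abs_add_le _ _).trans ?_
  have := abs_add_le (u (p.1 + v p, p.2) - u (p.1 + v' p, p.2))
    (u (p.1 + v' p, p.2) - u' (p.1 + v' p, p.2))
  linarith

/-- the inverse displacement is Lipschitz. -/
theorem nv_lip {u : P2 → ℝ} {L : ℝ} (hL0 : 0 ≤ L) (hL : L ≤ 1 / 2)
    (hu : ∀ p q : P2, |u p - u q| ≤ L * ‖p - q‖)
    (hn : ∀ p, nv u p + u (p.1 + nv u p, p.2) = 0) (p q : P2) :
    |nv u p - nv u q| ≤ 2 * L * ‖p - q‖ := by
  have h1 := hn p
  have h2 := hn q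
  have h3 := hu (p.1 + nv u p, p.2) (q.1 + nv u q, q.2)
  have hN := norm_nonneg (p - q)
  have h4 : ‖((p.1 + nv u p, p.2) : P2) - (q.1 + nv u q, q.2)‖
      ≤ ‖p - q‖ + |nv u p - nv u q| := by
    rw [Prod.mk_sub_mk]
    apply norm_mk_le
    · have : p.1 + nv u p - (q.1 + nv u q) = (p.1 - q.1) + (nv u p - nv u q) := by ring
      rw [this]
      refine (abs_add_le _ _).trans ?_
      have := norm_sub_le_fst (p := p) (q := q)
      linarith
    · have := norm_sub_le_snd (p := p) (q := q)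
      have := abs_nonneg (nv u p - nv u q)
      linarith
  have h5 := mul_le_mul_of_nonneg_left h4 hL0
  have h6 : nv u p - nv u q
      = -(u (p.1 + nv u p, p.2) - u (q.1 + nv u q, q.2)) := by linarith
  have h7 : |nv u p - nv u q| ≤ L * (‖p - q‖ + |nv u p - nv u q|) := by
    calc |nv u p - nv u q| = |u (p.1 + nv u p, p.2) - u (q.1 + nv u q, q.2)| := by
          rw [h6, abs_neg]
      _ ≤ _ := h3.trans h5
  have h8 := abs_nonneg (nv u p - nv u q)
  nlinarith

theorem nb_comp_fst {η : ℝ → ℝ} (hη : ContDiff ℝ ∞ η) {r : ℕ} {C : ℝ}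
    (h : ∀ x, ‖iteratedFDeriv ℝ r η x‖ ≤ C) : NB r (fun p : P2 => η p.1) C := by
  intro p
  have h1 : (fun p : P2 => η p.1) = η ∘ (ContinuousLinearMap.fst ℝ ℝ ℝ) := rfl
  rw [h1, ContinuousLinearMap.iteratedFDeriv_comp_right (n := ∞) _ hη p
    (by exact_mod_cast le_top)]
  refine (ContinuousMultilinearMap.norm_compContinuousLinearMap_le _ _).trans ?_
  have h2 : ∏ i : Fin r, ‖(ContinuousLinearMap.fst ℝ ℝ ℝ)‖ ≤ 1 := by
    apply Finset.prod_le_one
    · intro i _; exact norm_nonneg _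
    · intro i _; exact ContinuousLinearMap.norm_fst_le ..
  calc _ ≤ C * 1 := by
        apply mul_le_mul (h _) h2 (Finset.prod_nonneg fun i _ => norm_nonneg _)
        exact (norm_nonneg _).trans (h 0)
    _ = C := mul_one C

theorem nb_comp_snd {η : ℝ → ℝ} (hη : ContDiff ℝ ∞ η) {r : ℕ} {C : ℝ}
    (h : ∀ x, ‖iteratedFDeriv ℝ r η x‖ ≤ C) : NB r (fun p : P2 => η p.2) C := by
  intro p
  have h1 : (fun p : P2 => η p.2) = η ∘ (ContinuousLinearMap.snd ℝ ℝ ℝ) := rfl
  rw [h1, ContinuousLinearMap.iteratedFDeriv_comp_right (n := ∞) _ hη p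
    (by exact_mod_cast le_top)]
  refine (ContinuousMultilinearMap.norm_compContinuousLinearMap_le _ _).trans ?_
  have h2 : ∏ i : Fin r, ‖(ContinuousLinearMap.snd ℝ ℝ ℝ)‖ ≤ 1 := by
    apply Finset.prod_le_one
    · intro i _; exact norm_nonneg _
    · intro i _; exact ContinuousLinearMap.norm_snd_le ..
  calc _ ≤ C * 1 := by
        apply mul_le_mul (h _) h2 (Finset.prod_nonneg fun i _ => norm_nonneg _)
        exact (norm_nonneg _).trans (h 0)
    _ = C := mul_one C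

/-- the strip of a periodic function: everything of order `0` and `1`. -/
theorem strip_contDiff {f : P2 → ℝ} (hf : ContDiff ℝ ∞ f) : ContDiff ℝ ∞ (strip f) := by
  unfold strip
  apply hf.sub
  apply hf.comp
  exact contDiff_const.prodMk contDiff_snd

theorem per_fract {f : P2 → ℝ} (hp : ∀ p : P2, f (p.1 + 1, p.2) = f p) (p : P2) :
    f (Int.fract p.1, p.2) = f p := by
  have hn : ∀ (n : ℕ) (q : P2), f (q.1 + n, q.2) = f q := by
    intro n
    induction n with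
    | zero => intro q; simp
    | succ n ih =>
      intro q
      have := hp (q.1 + n, q.2)
      simp only at this
      rw [ih q] at this
      rw [← this]
      push_cast
      ring_nf
  have hz : ∀ (n : ℤ) (q : P2), f (q.1 + n, q.2) = f q := by
    intro n q
    obtain ⟨m, rfl | rfl⟩ := Int.eq_nat_or_neg n
    · simpa using hn m q
    · have := hn m (q.1 + ((-(m : ℤ) : ℤ) : ℝ), q.2)
      simp only at this
      rw [← this]
      push_cast
      ring_nf
  have := hz ⌊p.1⌋ (Int.fract p.1, p.2)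
  simp only [Int.fract_add_floor] at this
  exact this.symm

theorem strip_bd {f : P2 → ℝ} (hf : ContDiff ℝ ∞ f) (hp : ∀ p : P2, f (p.1 + 1, p.2) = f p)
    {d : ℝ} (h : NB 1 f d) (p : P2) : |strip f p| ≤ d := by
  unfold strip
  rw [← per_fract hp p]
  have h1 := nb_lip hf h (Int.fract p.1, p.2) (0, p.2)
  have hd := nb_nonneg h
  have h2 : ‖((Int.fract p.1, p.2) : P2) - (0, p.2)‖ ≤ 1 := by
    rw [Prod.mk_sub_mk]
    apply norm_mk_le
    · rw [sub_zero, abs_of_nonneg (Int.fract_nonneg _)]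
      exact (Int.fract_lt_one _).le
    · simp
  nlinarith

theorem strip_lip {f : P2 → ℝ} {d : ℝ} (hd : 0 ≤ d)
    (h : ∀ p q : P2, |f p - f q| ≤ d * ‖p - q‖) (p q : P2) :
    |strip f p - strip f q| ≤ 2 * d * ‖p - q‖ := by
  unfold strip
  have h1 := h p q
  have h2 := h (0, p.2) (0, q.2)
  have h3 : ‖((0, p.2) : P2) - (0, q.2)‖ ≤ ‖p - q‖ := by
    rw [Prod.mk_sub_mk]
    apply norm_mk_le
    · simp
    · exact norm_sub_le_snd
  have h4 := mul_le_mul_of_nonneg_left h3 hd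
  have h5 : f p - f (0, p.2) - (f q - f (0, q.2)) = (f p - f q) - (f (0, p.2) - f (0, q.2)) := by
    ring
  rw [h5]
  refine (abs_sub _ _).trans ?_
  linarith

theorem strip_nb_one {f : P2 → ℝ} (hf : ContDiff ℝ ∞ f) {d : ℝ} (h : NB 1 f d) :
    NB 1 (strip f) (2 * d) :=
  lip_nb (by have := nb_nonneg h; positivity) (strip_lip (nb_nonneg h) (nb_lip hf h))

theorem strip_per {f : P2 → ℝ} (hp : ∀ p : P2, f (p.1 + 1, p.2) = f p) (p : P2) :
    strip f (p.1 + 1, p.2) = strip f p := by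
  unfold strip
  rw [hp]

theorem mul_lip {η u : P2 → ℝ} {C a b : ℝ} (hC : 0 ≤ C)
    (hη0 : ∀ p, |η p| ≤ 1) (hη : ∀ p q : P2, |η p - η q| ≤ C * ‖p - q‖)
    (hu0 : ∀ p, |u p| ≤ a) (hu : ∀ p q : P2, |u p - u q| ≤ b * ‖p - q‖) (p q : P2) :
    |η p * u p - η q * u q| ≤ (b + C * a) * ‖p - q‖ := by
  have h1 : η p * u p - η q * u q = η p * (u p - u q) + (η p - η q) * u q := by ring
  rw [h1]
  refine (abs_add_le _ _).trans ?_
  rw [abs_mul, abs_mul]
  have h2 := hη0 p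
  have h3 := hu p q
  have h4 := hη p q
  have h5 := hu0 q
  have hN := norm_nonneg (p - q)
  have h6 : |η p| * |u p - u q| ≤ 1 * (b * ‖p - q‖) :=
    mul_le_mul h2 h3 (abs_nonneg _) zero_le_one
  have h7 : |η p - η q| * |u q| ≤ (C * ‖p - q‖) * a :=
    mul_le_mul h4 h5 (abs_nonneg _) (by positivity)
  linarith

end Pool.Agent.W509.DQ
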